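import Pool.Agent.Work.MP_b0293a_gt.Defs

/-! The cut decomposition of the metric of a finite subset of `ℓ₁`. -/

namespace Pool.Agent.Work.MP_b0293a_gt

open MeasureTheory Set

/-- The set of points of `M` on the other side of the cut than `r`. -/
noncomputable def side (M : Finset L1) (r : L1) (c : ℕ × ℝ) : Finset L1 := by
  classical exact M.filter (fun x => Sep c r x)

theorem mem_side {M : Finset L1} {r : L1} {c : ℕ × ℝ} {x : L1} (hx : x ∈ M) :
    x ∈ side M r c ↔ Sep c r x := by
  classical
  simp only [side, Finset.mem_filter, hx, true_and]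

theorem side_subset (M : Finset L1) (r : L1) (c : ℕ × ℝ) : side M r c ⊆ M := by
  classical
  exact Finset.filter_subset _ _

theorem sep_iff {M : Finset L1} {r : L1} {c : ℕ × ℝ} {x y : L1} (hx : x ∈ M) (hy : y ∈ M) :
    Sep c x y ↔ ¬ (x ∈ side M r c ↔ y ∈ side M r c) := by
  rw [mem_side hx, mem_side hy]
  simp only [Sep]
  tauto

/-- The (possibly infinite) weight of a cut of `M`. -/
noncomputable def WE (M : Finset L1) (r : L1) (T : Finset L1) : ENNReal :=
  ∑' i : ℕ, volume {t : ℝ | side M r (i, t) = T}

theorem measurable_sep (i : ℕ) (x y : L1) : MeasurableSet {t : ℝ | Sep (i, t) x y} := by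
  have : {t : ℝ | Sep (i, t) x y} = ((Ici (x i) ∩ Iio (y i)) ∪ (Ici (y i) ∩ Iio (x i))) := by
    ext t
    simp only [Sep, Low, Set.mem_ofPred_eq, mem_union, mem_inter_iff, mem_Ici, mem_Iio, ← not_le]
    tauto
  rw [this]
  exact (measurableSet_Ici.inter measurableSet_Iio).union (measurableSet_Ici.inter measurableSet_Iio)

theorem measurable_side (M : Finset L1) (r : L1) (T : Finset L1) (i : ℕ) :
    MeasurableSet {t : ℝ | side M r (i, t) = T} := by
  classical
  by_cases hT : T ⊆ M
  · have : {t : ℝ | side M r (i, t) = T} =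
        ⋂ x ∈ M, (if x ∈ T then {t : ℝ | Sep (i, t) r x} else {t : ℝ | Sep (i, t) r x}ᶜ) := by
      ext t
      simp only [Set.mem_ofPred_eq, mem_iInter]
      constructor
      · intro h x hx
        have h1 := mem_side (r := r) (c := (i, t)) hx
        rw [h] at h1
        by_cases hxT : x ∈ T
        · rw [if_pos hxT]
          exact h1.1 hxT
        · rw [if_neg hxT]
          exact fun h2 => hxT (h1.2 h2)
      · intro h
        ext x
        by_cases hx : x ∈ M
        · have h1 := h x hx
          rw [mem_side hx]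
          by_cases hxT : x ∈ T
          · rw [if_pos hxT] at h1
            exact ⟨fun _ => hxT, fun _ => h1⟩
          · rw [if_neg hxT] at h1
            exact ⟨fun h2 => absurd h2 h1, fun h2 => absurd h2 hxT⟩
        · exact ⟨fun h2 => absurd (side_subset _ _ _ h2) hx, fun h2 => absurd (hT h2) hx⟩
    rw [this]
    refine Finset.measurableSet_biInter M fun x _ => ?_
    split_ifs
    · exact measurable_sep i r x
    · exact (measurable_sep i r x).compl
  · have : {t : ℝ | side M r (i, t) = T} = ∅ := by
      ext t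
      simp only [Set.mem_ofPred_eq, mem_empty_iff_false, iff_false]
      intro h
      exact hT (h ▸ side_subset _ _ _)
    rw [this]
    exact MeasurableSet.empty

theorem volume_sep (i : ℕ) (x y : L1) :
    volume {t : ℝ | Sep (i, t) x y} = ENNReal.ofReal |x i - y i| := by
  rcases le_total (x i) (y i) with h | h
  · have : {t : ℝ | Sep (i, t) x y} = Ico (x i) (y i) := by
      ext t
      have h3 : y i ≤ t → x i ≤ t := fun h' => h.trans h'
      simp only [Sep, Low, Set.mem_ofPred_eq, mem_Ico, ← not_le]
      tauto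
    rw [this, Real.volume_Ico, abs_of_nonpos (by linarith)]
    congr 1
    ring
  · have : {t : ℝ | Sep (i, t) x y} = Ico (y i) (x i) := by
      ext t
      have h3 : x i ≤ t → y i ≤ t := fun h' => h.trans h'
      simp only [Sep, Low, Set.mem_ofPred_eq, mem_Ico, ← not_le]
      tauto
    rw [this, Real.volume_Ico, abs_of_nonneg (by linarith)]

theorem norm_eq (x : L1) : ENNReal.ofReal ‖x‖ = ∑' i : ℕ, ENNReal.ofReal |x i| := by
  have hs : Summable (fun i => |x i|) := by
    have := (lp.memℓp x).summable (by norm_num)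
    simpa using this
  have h1 : ‖x‖ = ∑' i, |x i| := by
    rw [lp.norm_eq_tsum_rpow (by norm_num)]
    simp
  rw [h1, ENNReal.ofReal_tsum_of_nonneg (fun i => abs_nonneg _) hs]

theorem norm_sub_eq (M : Finset L1) (r x y : L1) (hx : x ∈ M) (hy : y ∈ M) :
    ENNReal.ofReal ‖x - y‖ = by
      classical exact ∑ T ∈ M.powerset.filter (fun T => ¬ (x ∈ T ↔ y ∈ T)), WE M r T := by
  classical
  rw [norm_eq]
  have h1 : ∀ i : ℕ, ENNReal.ofReal |(x - y : L1) i| =
      ∑ T ∈ M.powerset.filter (fun T => ¬ (x ∈ T ↔ y ∈ T)),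
        volume {t : ℝ | side M r (i, t) = T} := by
    intro i
    have e : (x - y : L1) i = x i - y i := rfl
    rw [e, ← volume_sep]
    rw [← measure_biUnion_finset]
    · congr 1
      ext t
      simp only [Set.mem_ofPred_eq, mem_iUnion, Finset.mem_filter, Finset.mem_powerset, exists_prop]
      rw [sep_iff (M := M) (r := r) hx hy]
      constructor
      · intro h
        exact ⟨_, ⟨side_subset _ _ _, h⟩, rfl⟩
      · rintro ⟨T, ⟨_, h2⟩, rfl⟩
        exact h2
    · intro T _ T' _ hne
      rw [Function.onFun, Set.disjoint_left]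
      intro t ht ht'
      exact hne (ht.symm.trans ht')
    · intro T _
      exact measurable_side M r T i
  simp_rw [h1]
  exact Summable.tsum_finsetSum (fun _ _ => ENNReal.summable)

/-- The real weight. -/
noncomputable def WR (M : Finset L1) (r : L1) (T : Finset L1) : ℝ := (WE M r T).toReal

/-- The cuts of positive weight. -/
noncomputable def QQ (M : Finset L1) (r : L1) : Finset (Finset L1) := by
  classical exact M.powerset.filter (fun T => T.Nonempty ∧ WE M r T ≠ 0)

theorem QQ_side {M : Finset L1} {r : L1} {T : Finset L1} (hT : T ∈ QQ M r) :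
    ∃ c, side M r c = T := by
  classical
  simp only [QQ, Finset.mem_filter] at hT
  by_contra hc
  rw [not_exists] at hc
  apply hT.2.2
  rw [WE, ENNReal.tsum_eq_zero]
  intro i
  have : {t : ℝ | side M r (i, t) = T} = ∅ := by
    ext t
    simp only [Set.mem_ofPred_eq, mem_empty_iff_false, iff_false]
    exact hc (i, t)
  rw [this, measure_empty]

theorem not_mem_of_QQ {M : Finset L1} {r : L1} {T : Finset L1} (hT : T ∈ QQ M r) : r ∉ T := by
  classical
  obtain ⟨c, rfl⟩ := QQ_side hT
  intro h
  have h1 := (mem_side (side_subset _ _ _ h)).1 h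
  exact h1 Iff.rfl

theorem WR_nonneg (M : Finset L1) (r : L1) (T : Finset L1) : 0 ≤ WR M r T := ENNReal.toReal_nonneg

/-- The metric of `M` is a sum of cut metrics. -/
theorem norm_sub_eq' (M : Finset L1) (r x y : L1) (hx : x ∈ M) (hy : y ∈ M) :
    ‖x - y‖ = by
      classical exact ∑ T ∈ (QQ M r).filter (fun T => ¬ (x ∈ T ↔ y ∈ T)), WR M r T := by
  classical
  have h1 := norm_sub_eq M r x y hx hy
  have h2 : ∑ T ∈ M.powerset.filter (fun T => ¬ (x ∈ T ↔ y ∈ T)), WE M r T =
      ∑ T ∈ (QQ M r).filter (fun T => ¬ (x ∈ T ↔ y ∈ T)), WE M r T := by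
    symm
    apply Finset.sum_subset
    · apply Finset.filter_subset_filter
      simp only [QQ]
      exact Finset.filter_subset _ _
    · intro T hT hT'
      by_contra h0
      apply hT'
      rw [Finset.mem_filter] at hT ⊢
      refine ⟨?_, hT.2⟩
      simp only [QQ, Finset.mem_filter]
      refine ⟨hT.1, ?_, h0⟩
      by_contra he
      rw [Finset.not_nonempty_iff_eq_empty] at he
      subst he
      simp at hT
  have h3 : ∑ T ∈ M.powerset.filter (fun T => ¬ (x ∈ T ↔ y ∈ T)), WE M r T =
      ENNReal.ofReal ‖x - y‖ := h1.symm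
  rw [h2] at h3
  have h4 : ∀ T ∈ (QQ M r).filter (fun T => ¬ (x ∈ T ↔ y ∈ T)), WE M r T ≠ ⊤ := by
    apply (ENNReal.sum_ne_top).1
    rw [h3]
    exact ENNReal.ofReal_ne_top
  have h5 := congrArg ENNReal.toReal h3
  rw [ENNReal.toReal_sum h4, ENNReal.toReal_ofReal (norm_nonneg _)] at h5
  exact h5.symm

end Pool.Agent.Work.MP_b0293a_gt
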