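import Mathlib

/-! Coordinate cuts of finite subsets of `ℓ₁`. -/

namespace Pool.Agent.Work.MP_b0293a_gt

/-- The real Banach space `ℓ₁`. -/
abbrev L1 : Type := lp (fun _ : ℕ => ℝ) 1

/-- The coordinate cut `c = (i, t)` is the partition of `ℓ₁` into the two sides `{x | x i ≤ t}`
and `{x | t < x i}`. This is the first side. -/
def Low (c : ℕ × ℝ) (x : L1) : Prop := x c.1 ≤ c.2

/-- The cut `c` separates `x` and `y`: they are on different sides. -/
def Sep (c : ℕ × ℝ) (x y : L1) : Prop := ¬ (Low c x ↔ Low c y)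

/-- Two coordinate cuts cross on `M` if each of the four intersections of a side of the first cut
with a side of the second one contains a point of `M`. -/
def Cross (M : Finset L1) (c c' : ℕ × ℝ) : Prop :=
  (∃ x ∈ M, Low c x ∧ Low c' x) ∧ (∃ x ∈ M, Low c x ∧ ¬ Low c' x) ∧
  (∃ x ∈ M, ¬ Low c x ∧ Low c' x) ∧ (∃ x ∈ M, ¬ Low c x ∧ ¬ Low c' x)

/-- `M` has at most `m` pairwise crossing coordinate cuts which separate the base point `r` from
one and the same point of `M`. -/
def CrossAtMost (M : Finset L1) (r : L1) (m : ℕ) : Prop :=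
  ∀ z ∈ M, ∀ F : Finset (ℕ × ℝ), (∀ c ∈ F, Sep c r z) →
    (∀ c ∈ F, ∀ c' ∈ F, c ≠ c' → Cross M c c') → F.card ≤ m

/-- The median of three real numbers. -/
def med (a b c : ℝ) : ℝ := max (min a b) (min (max a b) c)

/-- `M` is closed under coordinatewise medians. -/
def MedianClosed (M : Finset L1) : Prop :=
  ∀ x ∈ M, ∀ y ∈ M, ∀ z ∈ M, ∃ w ∈ M, ∀ i, w i = med (x i) (y i) (z i)

end Pool.Agent.Work.MP_b0293a_gt
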