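import Pool.Agent.Work.MP_b0293a_gt.Main

/-! The dimension bound. -/

namespace Pool.Agent.Work.MP_b0293a_gt

/-- The number of rounds. -/
theorem rounds_bound (n : ℕ) (hn : 2 ≤ n) : ∃ J : ℕ, n * n * 3 ^ J < 4 ^ J ∧
    (J : ℝ) ≤ 14 * Real.log n := by
  have hn0 : (0 : ℝ) < n := by exact_mod_cast (by omega : 0 < n)
  have hlog : Real.log 2 ≤ Real.log n := Real.log_le_log (by norm_num) (by exact_mod_cast hn)
  have hl2 := Real.log_two_gt_d9
  have hpos : 0 < Real.log n := by linarith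
  set k := ⌊2 * Real.log n⌋₊ + 1 with hk
  refine ⟨4 * k, ?_, ?_⟩
  · have h1 : 2 * Real.log n < k := by
      rw [hk]
      push_cast
      exact Nat.lt_floor_add_one _
    have h2 : (n : ℝ) * n < Real.exp k := by
      have h3 : Real.exp (2 * Real.log n) = (n : ℝ) * n := by
        rw [two_mul, Real.exp_add, Real.exp_log hn0]
      rw [← h3]
      exact Real.exp_lt_exp.2 h1
    have h3 : Real.exp k ≤ (256 / 81 : ℝ) ^ k := by
      have h4 : Real.exp k = Real.exp 1 ^ k := by rw [← Real.exp_nat_mul, mul_one]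
      rw [h4]
      apply pow_le_pow_left₀ (Real.exp_pos _).le
      have := Real.exp_one_lt_d9
      linarith
    have h4 : ((n * n * 3 ^ (4 * k) : ℕ) : ℝ) < ((4 ^ (4 * k) : ℕ) : ℝ) := by
      push_cast
      have h5 : (256 / 81 : ℝ) ^ k = (4 : ℝ) ^ (4 * k) / 3 ^ (4 * k) := by
        rw [pow_mul, pow_mul, ← div_pow]
        norm_num
      rw [← lt_div_iff₀ (by positivity), ← h5]
      exact h2.trans_le h3
    exact_mod_cast h4
  · have h1 : (⌊2 * Real.log n⌋₊ : ℝ) ≤ 2 * Real.log n := Nat.floor_le (by positivity)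
    rw [hk]
    push_cast
    linarith

/-- The bound for the number of colours. -/
theorem colours_bound (n m : ℕ) (hn : 2 ≤ n) :
    ((4 * m * (Nat.log 2 (2 * (n * n)) + 1) : ℕ) : ℝ) ≤ 24 * m * Real.log n := by
  have hn0 : (0 : ℝ) < n := by exact_mod_cast (by omega : 0 < n)
  have hlog : Real.log 2 ≤ Real.log n := Real.log_le_log (by norm_num) (by exact_mod_cast hn)
  have hl2 := Real.log_two_gt_d9
  have h1 : (Nat.log 2 (2 * (n * n)) : ℝ) ≤ Real.logb 2 ((2 * (n * n) : ℕ) : ℝ) :=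
    Real.natLog_le_logb _ _
  have h2 : Real.logb 2 ((2 * (n * n) : ℕ) : ℝ) = 1 + 2 * (Real.log n / Real.log 2) := by
    push_cast
    rw [Real.logb, Real.log_mul (by norm_num) (by positivity), Real.log_mul hn0.ne' hn0.ne',
      add_div, div_self (by linarith)]
    ring
  have h3 : Real.log n / Real.log 2 ≤ (1.45 : ℝ) * Real.log n := by
    rw [div_le_iff₀ (by linarith)]
    nlinarith
  have h4 : (1 : ℝ) ≤ 1.45 * Real.log n := by nlinarith
  push_cast
  have h5 : (Nat.log 2 (2 * (n * n)) : ℝ) + 1 ≤ 6 * Real.log n := by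
    rw [h2] at h1
    linarith
  have hm : (0 : ℝ) ≤ 4 * m := by positivity
  calc 4 * (m : ℝ) * ((Nat.log 2 (2 * (n * n)) : ℝ) + 1) ≤ 4 * m * (6 * Real.log n) :=
        mul_le_mul_of_nonneg_left h5 hm
    _ = _ := by ring

theorem low_crossing (M : Finset L1) (r : L1) (m : ℕ) (hM : 2 ≤ M.card) (hr : r ∈ M)
    (hm : CrossAtMost M r m) :
    ∃ J B : ℕ, (Module.finrank ℝ (Fin J → PiLp 1 (fun _ : Fin B => ℝ)) : ℝ) ≤
        64512 * m ^ 2 * Real.log M.card ^ 3 ∧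
      ∃ f : L1 → (Fin J → PiLp 1 (fun _ : Fin B => ℝ)), ∀ x ∈ M, ∀ y ∈ M,
        ‖f x - f y‖ = ‖x - y‖ := by
  classical
  obtain ⟨J, hJ, hJb⟩ := rounds_bound M.card hM
  set K := 4 * m * (Nat.log 2 (2 * (M.card * M.card)) + 1) with hK
  have hKb : (K : ℝ) ≤ 24 * m * Real.log M.card := colours_bound M.card m hM
  have hm1 := one_le hM hm
  have hK0 : 0 < K := by positivity
  obtain ⟨Φ, hΦ⟩ := rounds (QQ M r) m (fun z A hA h1 h2 => anti hr hm z A hA h1 h2) K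
    (2 * (2 * K) ^ 2) le_rfl (by positivity) J (M ×ˢ M)
    (by rw [Finset.card_product]) (by rw [Finset.card_product]; exact hJ)
  refine ⟨J, 2 * (2 * K) ^ 2, ?_, embed M r J _ Φ (fun x hx y hy =>
    hΦ (x, y) (Finset.mem_product.2 ⟨hx, hy⟩))⟩
  rw [finrank_eq]
  push_cast
  have hlog : 0 ≤ Real.log M.card := Real.log_natCast_nonneg _
  have h1 : (K : ℝ) ^ 2 ≤ (24 * m * Real.log M.card) ^ 2 := by
    apply pow_le_pow_left₀ (by positivity) hKb
  calc (J : ℝ) * (2 * (2 * (K : ℝ)) ^ 2) = 8 * J * (K : ℝ) ^ 2 := by ring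
    _ ≤ 8 * (14 * Real.log M.card) * (24 * m * Real.log M.card) ^ 2 := by
        apply mul_le_mul (by linarith) h1 (by positivity) (by positivity)
    _ = 64512 * m ^ 2 * Real.log M.card ^ 3 := by ring

theorem crossAtMost_of_median (M M' : Finset L1) (r : L1) (hMM : M ⊆ M') (hr : r ∈ M)
    (hM' : MedianClosed M') : CrossAtMost M r (Nat.log 2 M'.card) := by
  intro z hz F hF hc
  apply med_card M' hM' ⟨r, hMM hr⟩ F
  · intro c hcF
    have h := hF c hcF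
    simp only [Sep] at h
    by_cases h1 : Low c r
    · have h2 : ¬ Low c z := by tauto
      exact ⟨⟨r, hMM hr, h1⟩, ⟨z, hMM hz, h2⟩⟩
    · have h2 : Low c z := by tauto
      exact ⟨⟨z, hMM hz, h2⟩, ⟨r, hMM hr, h1⟩⟩
  · intro c hc1 c' hc2 hne
    obtain ⟨⟨x1, h1, k1⟩, ⟨x2, h2, k2⟩, ⟨x3, h3, k3⟩, ⟨x4, h4, k4⟩⟩ := hc c hc1 c' hc2 hne
    exact ⟨⟨x1, hMM h1, k1⟩, ⟨x2, hMM h2, k2⟩, ⟨x3, hMM h3, k3⟩, ⟨x4, hMM h4, k4⟩⟩

theorem final (M : Finset L1) (r : L1) (m : ℕ) (hM : 2 ≤ M.card) (hr : r ∈ M)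
    (hm : CrossAtMost M r m ∨
      ∃ M' : Finset L1, M ⊆ M' ∧ MedianClosed M' ∧ M'.card < 2 ^ (m + 1)) :
    ∃ J B : ℕ, (Module.finrank ℝ (Fin J → PiLp 1 (fun _ : Fin B => ℝ)) : ℝ) ≤
        64512 * m ^ 2 * Real.log M.card ^ 3 ∧
      ∃ f : L1 → (Fin J → PiLp 1 (fun _ : Fin B => ℝ)), ∀ x ∈ M, ∀ y ∈ M,
        ‖f x - f y‖ = ‖x - y‖ := by
  apply low_crossing M r m hM hr
  rcases hm with hm | ⟨M', hMM, hM', hc⟩
  · exact hm
  · intro z hz F h1 h2
    refine (crossAtMost_of_median M M' r hMM hr hM' z hz F h1 h2).trans ?_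
    exact Nat.lt_succ_iff.1 (Nat.log_lt_of_lt_pow (by
      have := Finset.card_le_card hMM
      omega) hc)

end Pool.Agent.Work.MP_b0293a_gt
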