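import Mathlib

/-! Perfect hashing of at least half of a family of small sets, by greedy choice. -/

namespace Pool.Agent.Work.MP_b0293a_gt

theorem hash_aux {ι β : Type*} [DecidableEq ι] [DecidableEq β] (P : Finset β) (S : β → Finset ι)
    (k B : ℕ) (hS : ∀ p ∈ P, (S p).card ≤ k) (hB0 : 0 < B) (U : Finset ι) :
    ∃ h : ι → Fin B,
      B * (P.filter (fun p => ¬ Set.InjOn h ((S p ∩ U : Finset ι) : Set ι))).card ≤
        k * ∑ a ∈ U, (P.filter (fun p => a ∈ S p)).card := by
  classical
  induction U using Finset.induction_on with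
  | empty => exact ⟨fun _ => ⟨0, hB0⟩, by simp⟩
  | insert a U ha ih =>
    obtain ⟨h, hh⟩ := ih
    have : NeZero B := ⟨hB0.ne'⟩
    -- the number of new collisions when `a` gets colour `v`
    let N : Fin B → ℕ := fun v =>
      (P.filter (fun p => a ∈ S p ∧ ∃ b ∈ S p ∩ U, h b = v)).card
    have hsum : ∑ v, N v ≤ k * (P.filter (fun p => a ∈ S p)).card := by
      have h1 : ∀ v, N v = ∑ p ∈ P.filter (fun p => a ∈ S p),
          if (∃ b ∈ S p ∩ U, h b = v) then 1 else 0 := by
        intro v
        rw [Finset.sum_boole, Finset.filter_filter]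
        simp [N]
      simp_rw [h1]
      rw [Finset.sum_comm]
      calc ∑ p ∈ P.filter (fun p => a ∈ S p), ∑ v, (if (∃ b ∈ S p ∩ U, h b = v) then 1 else 0)
          ≤ ∑ p ∈ P.filter (fun p => a ∈ S p), k := by
            refine Finset.sum_le_sum fun p hp => ?_
            rw [Finset.sum_boole]
            have h2 : (Finset.univ.filter (fun v => ∃ b ∈ S p ∩ U, h b = v)) ⊆ (S p).image h := by
              intro v hv
              obtain ⟨b, hb, hbv⟩ := (Finset.mem_filter.1 hv).2
              exact Finset.mem_image.2 ⟨b, Finset.mem_of_mem_inter_left hb, hbv⟩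
            have h3 := (Finset.card_le_card h2).trans Finset.card_image_le
            exact_mod_cast h3.trans (hS p (Finset.mem_filter.1 hp).1)
        _ = k * (P.filter (fun p => a ∈ S p)).card := by
            rw [Finset.sum_const, smul_eq_mul, mul_comm]
    obtain ⟨v, -, hv⟩ := Finset.exists_min_image Finset.univ N ⟨0, Finset.mem_univ _⟩
    have hBN : B * N v ≤ k * (P.filter (fun p => a ∈ S p)).card := by
      refine le_trans ?_ hsum
      calc B * N v = ∑ _v : Fin B, N v := by simp
        _ ≤ ∑ v', N v' := Finset.sum_le_sum fun v' _ => hv v' (Finset.mem_univ _)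
    refine ⟨Function.update h a v, ?_⟩
    have hsub : (P.filter (fun p => ¬ Set.InjOn (Function.update h a v)
        ((S p ∩ insert a U : Finset ι) : Set ι))) ⊆
        (P.filter (fun p => ¬ Set.InjOn h ((S p ∩ U : Finset ι) : Set ι))) ∪
        (P.filter (fun p => a ∈ S p ∧ ∃ b ∈ S p ∩ U, h b = v)) := by
      intro p hp
      obtain ⟨hpP, hp⟩ := Finset.mem_filter.1 hp
      by_contra hc
      rw [Finset.mem_union, not_or, Finset.mem_filter, Finset.mem_filter] at hc
      have hc1 : Set.InjOn h ((S p ∩ U : Finset ι) : Set ι) := by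
        by_contra h'
        exact hc.1 ⟨hpP, h'⟩
      have hc2 : ¬ (a ∈ S p ∧ ∃ b ∈ S p ∩ U, h b = v) := fun h' => hc.2 ⟨hpP, h'⟩
      apply hp
      intro x hx y hy hxy
      rw [Finset.mem_coe, Finset.mem_inter, Finset.mem_insert] at hx hy
      by_cases hxa : x = a
      · by_cases hya : y = a
        · rw [hxa, hya]
        · exfalso
          apply hc2
          subst hxa
          refine ⟨hx.1, y, Finset.mem_inter.2 ⟨hy.1, hy.2.resolve_left hya⟩, ?_⟩
          rw [Function.update_self, Function.update_of_ne hya] at hxy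
          exact hxy.symm
      · by_cases hya : y = a
        · exfalso
          apply hc2
          subst hya
          refine ⟨hy.1, x, Finset.mem_inter.2 ⟨hx.1, hx.2.resolve_left hxa⟩, ?_⟩
          rw [Function.update_self, Function.update_of_ne hxa] at hxy
          exact hxy
        · rw [Function.update_of_ne hxa, Function.update_of_ne hya] at hxy
          exact hc1 (Finset.mem_coe.2 (Finset.mem_inter.2 ⟨hx.1, hx.2.resolve_left hxa⟩))
            (Finset.mem_coe.2 (Finset.mem_inter.2 ⟨hy.1, hy.2.resolve_left hya⟩)) hxy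
    have hcard := (Finset.card_le_card hsub).trans (Finset.card_union_le _ _)
    rw [Finset.sum_insert ha, mul_add]
    calc B * _ ≤ B * ((P.filter (fun p => ¬ Set.InjOn h ((S p ∩ U : Finset ι) : Set ι))).card
          + N v) := Nat.mul_le_mul_left _ hcard
      _ = B * (P.filter (fun p => ¬ Set.InjOn h ((S p ∩ U : Finset ι) : Set ι))).card
          + B * N v := mul_add _ _ _
      _ ≤ _ := by linarith

/-- If all sets have at most `k` elements and `2 k² ≤ B`, some map to `Fin B` is injective on at
least half of the sets. -/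
theorem hash {ι β : Type*} [DecidableEq ι] [DecidableEq β] (P : Finset β) (S : β → Finset ι)
    (k B : ℕ) (hS : ∀ p ∈ P, (S p).card ≤ k) (hB : 2 * k ^ 2 ≤ B) (hB0 : 0 < B) :
    ∃ h : ι → Fin B, ∃ G ⊆ P, P.card ≤ 2 * G.card ∧ ∀ p ∈ G, Set.InjOn h (S p : Set ι) := by
  classical
  obtain ⟨h, hh⟩ := hash_aux P S k B hS hB0 (P.biUnion S)
  have hinter : ∀ p ∈ P, S p ∩ P.biUnion S = S p := by
    intro p hp
    exact Finset.inter_eq_left.2 (Finset.subset_biUnion_of_mem S hp)
  refine ⟨h, P.filter (fun p => Set.InjOn h ((S p ∩ P.biUnion S : Finset ι) : Set ι)),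
    Finset.filter_subset _ _, ?_, ?_⟩
  · have hsum : ∑ a ∈ P.biUnion S, (P.filter (fun p => a ∈ S p)).card ≤ k * P.card := by
      have h1 : ∀ a, (P.filter (fun p => a ∈ S p)).card = ∑ p ∈ P, if a ∈ S p then 1 else 0 := by
        intro a
        rw [Finset.sum_boole]
        simp
      simp_rw [h1]
      rw [Finset.sum_comm]
      calc ∑ p ∈ P, ∑ a ∈ P.biUnion S, (if a ∈ S p then 1 else 0) ≤ ∑ p ∈ P, k := by
            refine Finset.sum_le_sum fun p hp => ?_
            rw [Finset.sum_boole]
            have h2 : ((P.biUnion S).filter (fun a => a ∈ S p)) ⊆ S p := by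
              intro a ha
              exact (Finset.mem_filter.1 ha).2
            exact_mod_cast (Finset.card_le_card h2).trans (hS p hp)
        _ = k * P.card := by rw [Finset.sum_const, smul_eq_mul, mul_comm]
    have hpart := Finset.card_filter_add_card_filter_not (s := P)
      (fun p => Set.InjOn h ((S p ∩ P.biUnion S : Finset ι) : Set ι))
    set bad := (P.filter (fun p => ¬ Set.InjOn h ((S p ∩ P.biUnion S : Finset ι) : Set ι))).card
      with hbad
    have h3 : B * bad ≤ k ^ 2 * P.card := by
      calc B * bad ≤ k * ∑ a ∈ P.biUnion S, (P.filter (fun p => a ∈ S p)).card := hh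
        _ ≤ k * (k * P.card) := Nat.mul_le_mul_left _ hsum
        _ = k ^ 2 * P.card := by ring
    rcases Nat.eq_zero_or_pos k with hk | hk
    · have : bad = 0 := by
        rw [hk] at h3
        have h4 : B * bad = 0 := by simpa using h3
        rcases Nat.mul_eq_zero.1 h4 with h5 | h5
        · omega
        · exact h5
      omega
    · have h4 : 2 * k ^ 2 * bad ≤ k ^ 2 * P.card := (Nat.mul_le_mul_right _ hB).trans h3
      have h5 : 2 * bad ≤ P.card := by
        have hk2 : 0 < k ^ 2 := by positivity
        nlinarith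
      omega
  · intro p hp
    have h1 := (Finset.mem_filter.1 hp).2
    rwa [hinter p (Finset.mem_filter.1 hp).1] at h1

end Pool.Agent.Work.MP_b0293a_gt
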