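import Pool.Agent.Work.MP_b0293a_gt.Defs

/-! Pairwise crossing cuts of a median closed set (Helly property). -/

namespace Pool.Agent.Work.MP_b0293a_gt

theorem med_le (p q s t : ℝ) : med p q s ≤ t ↔
    (p ≤ t ∨ q ≤ t) ∧ ((p ≤ t ∧ q ≤ t) ∨ s ≤ t) := by
  rw [med, max_le_iff, min_le_iff, min_le_iff, max_le_iff]

theorem med_helly (M : Finset L1) (hM : MedianClosed M) (hne : M.Nonempty) (F : Finset (ℕ × ℝ))
    (hs : ∀ c ∈ F, (∃ x ∈ M, Low c x) ∧ (∃ x ∈ M, ¬ Low c x))
    (hc : ∀ c ∈ F, ∀ c' ∈ F, c ≠ c' → Cross M c c') (a : ℕ × ℝ → Bool) :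
    ∃ x ∈ M, ∀ c ∈ F, (Low c x ↔ a c = true) := by
  classical
  induction F using Finset.strongInduction with
  | H F ih =>
    by_cases h2 : 2 < F.card
    · obtain ⟨c1, h1, c2, h2, c3, h3, h12, h13, h23⟩ := Finset.two_lt_card.1 h2
      have key : ∀ c0 ∈ F, ∃ x ∈ M, ∀ c ∈ F.erase c0, (Low c x ↔ a c = true) := by
        intro c0 hc0
        exact ih (F.erase c0) (Finset.erase_ssubset hc0)
          (fun c hc' => hs c (Finset.mem_of_mem_erase hc'))
          (fun c hc1 c' hc2 => hc c (Finset.mem_of_mem_erase hc1) c' (Finset.mem_of_mem_erase hc2))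
      obtain ⟨x1, hx1, k1⟩ := key c1 h1
      obtain ⟨x2, hx2, k2⟩ := key c2 h2
      obtain ⟨x3, hx3, k3⟩ := key c3 h3
      obtain ⟨w, hw, hwi⟩ := hM x1 hx1 x2 hx2 x3 hx3
      refine ⟨w, hw, fun c hcF => ?_⟩
      show w c.1 ≤ c.2 ↔ a c = true
      rw [hwi, med_le]
      have e1 : c ≠ c1 → (x1 c.1 ≤ c.2 ↔ a c = true) := fun h =>
        k1 c (Finset.mem_erase.2 ⟨h, hcF⟩)
      have e2 : c ≠ c2 → (x2 c.1 ≤ c.2 ↔ a c = true) := fun h =>
        k2 c (Finset.mem_erase.2 ⟨h, hcF⟩)
      have e3 : c ≠ c3 → (x3 c.1 ≤ c.2 ↔ a c = true) := fun h =>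
        k3 c (Finset.mem_erase.2 ⟨h, hcF⟩)
      by_cases q1 : c = c1
      · subst q1
        have f2 := e2 h12
        have f3 := e3 h13
        tauto
      · by_cases q2 : c = c2
        · subst q2
          have f1 := e1 q1
          have f3 := e3 h23
          tauto
        · have f1 := e1 q1
          have f2 := e2 q2
          tauto
    · rcases Nat.lt_or_ge F.card 2 with h1 | h1
      · rcases Nat.lt_or_ge F.card 1 with h0 | h0
        · have : F = ∅ := Finset.card_eq_zero.1 (by omega)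
          subst this
          obtain ⟨x, hx⟩ := hne
          exact ⟨x, hx, fun c hc' => absurd hc' (Finset.notMem_empty c)⟩
        · obtain ⟨c, rfl⟩ := Finset.card_eq_one.1 (by omega : F.card = 1)
          obtain ⟨⟨x, hx, hxc⟩, ⟨y, hy, hyc⟩⟩ := hs c (Finset.mem_singleton_self c)
          by_cases hac : a c = true
          · refine ⟨x, hx, fun c' hc' => ?_⟩
            rw [Finset.mem_singleton] at hc'
            subst hc'
            exact ⟨fun _ => hac, fun _ => hxc⟩
          · refine ⟨y, hy, fun c' hc' => ?_⟩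
            rw [Finset.mem_singleton] at hc'
            subst hc'
            exact ⟨fun h => absurd h hyc, fun h => absurd h hac⟩
      · obtain ⟨c, c', hne', rfl⟩ := Finset.card_eq_two.1 (by omega : F.card = 2)
        obtain ⟨⟨x1, hx1, p1, p2⟩, ⟨x2, hx2, p3, p4⟩, ⟨x3, hx3, p5, p6⟩, ⟨x4, hx4, p7, p8⟩⟩ :=
          hc c (by simp) c' (by simp) hne'
        by_cases ha : a c = true <;> by_cases ha' : a c' = true
        · refine ⟨x1, hx1, fun d hd => ?_⟩
          rw [Finset.mem_insert, Finset.mem_singleton] at hd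
          rcases hd with rfl | rfl <;> tauto
        · refine ⟨x2, hx2, fun d hd => ?_⟩
          rw [Finset.mem_insert, Finset.mem_singleton] at hd
          rcases hd with rfl | rfl <;> tauto
        · refine ⟨x3, hx3, fun d hd => ?_⟩
          rw [Finset.mem_insert, Finset.mem_singleton] at hd
          rcases hd with rfl | rfl <;> tauto
        · refine ⟨x4, hx4, fun d hd => ?_⟩
          rw [Finset.mem_insert, Finset.mem_singleton] at hd
          rcases hd with rfl | rfl <;> tauto

/-- Pairwise crossing nontrivial cuts of a median closed set: at most `log₂` of its size. -/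
theorem med_card (M : Finset L1) (hM : MedianClosed M) (hne : M.Nonempty) (F : Finset (ℕ × ℝ))
    (hs : ∀ c ∈ F, (∃ x ∈ M, Low c x) ∧ (∃ x ∈ M, ¬ Low c x))
    (hc : ∀ c ∈ F, ∀ c' ∈ F, c ≠ c' → Cross M c c') : F.card ≤ Nat.log 2 M.card := by
  classical
  apply Nat.le_log_of_pow_le (by norm_num)
  have h1 : ∀ b : F → Bool, ∃ x : M, ∀ c : F, (Low c.1 (x : L1) ↔ b c = true) := by
    intro b
    obtain ⟨x, hx, hxb⟩ := med_helly M hM hne F hs hc
      (fun c => if h : c ∈ F then b ⟨c, h⟩ else true)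
    refine ⟨⟨x, hx⟩, fun c => ?_⟩
    have := hxb c.1 c.2
    simpa using this
  choose f hf using h1
  have hinj : Function.Injective f := by
    intro b b' h
    funext c
    have h1 := hf b c
    have h2 := hf b' c
    rw [h] at h1
    rw [Bool.eq_iff_iff]
    exact h1.symm.trans h2
  have := Fintype.card_le_of_injective f hinj
  simpa using this

end Pool.Agent.Work.MP_b0293a_gt
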