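import Pool.Agent.Work.MP_b0293a_gt.Round
import Pool.Agent.Work.MP_b0293a_gt.Cuts
import Pool.Agent.Work.MP_b0293a_gt.Med

/-! Assembly. -/

namespace Pool.Agent.Work.MP_b0293a_gt

theorem cross_of {M : Finset L1} {c c' : ℕ × ℝ} {r z u v : L1} (hr : r ∈ M) (hz : z ∈ M)
    (hu : u ∈ M) (hv : v ∈ M) (h1 : Sep c r z) (h2 : Sep c' r z) (h3 : Sep c r u)
    (h4 : ¬ Sep c' r u) (h5 : ¬ Sep c r v) (h6 : Sep c' r v) : Cross M c c' := by
  simp only [Sep] at h1 h2 h3 h4 h5 h6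
  simp only [Cross]
  by_cases a : Low c r <;> by_cases b : Low c' r
  · exact ⟨⟨r, hr, a, b⟩, ⟨v, hv, by tauto, by tauto⟩, ⟨u, hu, by tauto, by tauto⟩,
      ⟨z, hz, by tauto, by tauto⟩⟩
  · exact ⟨⟨v, hv, by tauto, by tauto⟩, ⟨r, hr, a, b⟩, ⟨z, hz, by tauto, by tauto⟩,
      ⟨u, hu, by tauto, by tauto⟩⟩
  · exact ⟨⟨u, hu, by tauto, by tauto⟩, ⟨z, hz, by tauto, by tauto⟩, ⟨r, hr, a, b⟩,
      ⟨v, hv, by tauto, by tauto⟩⟩
  · exact ⟨⟨z, hz, by tauto, by tauto⟩, ⟨u, hu, by tauto, by tauto⟩, ⟨v, hv, by tauto, by tauto⟩,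
      ⟨r, hr, a, b⟩⟩

/-- Antichains of cuts through a point. -/
theorem anti {M : Finset L1} {r : L1} {m : ℕ} (hr : r ∈ M) (hm : CrossAtMost M r m) (z : L1)
    (A : Finset (Finset L1)) (hA : A ⊆ QQ M r) (hanti : IsAntichain (· ⊆ ·) (A : Set (Finset L1)))
    (hz : ∀ T ∈ A, z ∈ T) : A.card ≤ m := by
  classical
  rcases A.eq_empty_or_nonempty with rfl | ⟨T0, hT0⟩
  · simp
  have hside : ∀ T : Finset L1, ∃ c : ℕ × ℝ, T ∈ A → side M r c = T := by
    intro T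
    by_cases hT : T ∈ A
    · obtain ⟨c, hc⟩ := QQ_side (hA hT)
      exact ⟨c, fun _ => hc⟩
    · exact ⟨(0, 0), fun h => absurd h hT⟩
  choose c hc using hside
  have hsub : ∀ T ∈ A, T ⊆ M := by
    intro T hT
    rw [← hc T hT]
    exact side_subset _ _ _
  have hzM : z ∈ M := hsub T0 hT0 (hz T0 hT0)
  have hmem : ∀ T ∈ A, ∀ x ∈ M, (x ∈ T ↔ Sep (c T) r x) := by
    intro T hT x hx
    rw [← mem_side hx, hc T hT]
  have hcard : A.card = (A.image c).card := by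
    symm
    apply Finset.card_image_of_injOn
    intro T hT T' hT' h
    rw [← hc T hT, ← hc T' hT', h]
  rw [hcard]
  apply hm z hzM
  · intro d hd
    obtain ⟨T, hT, rfl⟩ := Finset.mem_image.1 hd
    exact (hmem T hT z hzM).1 (hz T hT)
  · intro d hd d' hd' hne
    obtain ⟨T, hT, rfl⟩ := Finset.mem_image.1 hd
    obtain ⟨T', hT', rfl⟩ := Finset.mem_image.1 hd'
    have hTT : T ≠ T' := fun h => hne (by rw [h])
    have h1 : ¬ T ⊆ T' := hanti (Finset.mem_coe.2 hT) (Finset.mem_coe.2 hT') hTT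
    have h2 : ¬ T' ⊆ T := hanti (Finset.mem_coe.2 hT') (Finset.mem_coe.2 hT) hTT.symm
    obtain ⟨u, huT, huT'⟩ := Finset.not_subset.1 h1
    obtain ⟨v, hvT', hvT⟩ := Finset.not_subset.1 h2
    have huM := hsub T hT huT
    have hvM := hsub T' hT' hvT'
    exact cross_of hr hzM huM hvM ((hmem T hT z hzM).1 (hz T hT))
      ((hmem T' hT' z hzM).1 (hz T' hT')) ((hmem T hT u huM).1 huT)
      (fun h => huT' ((hmem T' hT' u huM).2 h)) (fun h => hvT ((hmem T hT v hvM).2 h))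
      ((hmem T' hT' v hvM).1 hvT')

theorem one_le {M : Finset L1} {r : L1} {m : ℕ} (hM : 2 ≤ M.card)
    (hm : CrossAtMost M r m) : 1 ≤ m := by
  classical
  obtain ⟨z, hz, hne⟩ := Finset.exists_mem_ne (by omega : 1 < M.card) r
  have h1 : ∃ i, r i ≠ z i := by
    by_contra hc
    push Not at hc
    exact hne (lp.ext (funext fun i => (hc i).symm))
  obtain ⟨i, hi⟩ := h1
  have h2 : Sep (i, min (r i) (z i)) r z := by
    simp only [Sep, Low]
    rcases lt_or_gt_of_ne hi with h | h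
    · rw [min_eq_left h.le]
      simp [h]
    · rw [min_eq_right h.le]
      simp [h]
  have := hm z hz {(i, min (r i) (z i))} (by
    intro c hc
    rw [Finset.mem_singleton] at hc
    rw [hc]
    exact h2) (by
    intro c hc c' hc' h
    rw [Finset.mem_singleton] at hc hc'
    exact absurd (hc.trans hc'.symm) h)
  simpa using this

/-- Coordinates of one colour. -/
theorem abs_sum_eq {A : Finset (Finset L1)} {W : Finset L1 → ℝ} (hW : ∀ T, 0 ≤ W T) (x y : L1)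
    [∀ T : Finset L1, Decidable (x ∈ T)]
    (hsep : ∀ T ∈ A, ¬ (x ∈ T ↔ y ∈ T)) (hcomp : ∀ T ∈ A, ∀ T' ∈ A, T ⊆ T' ∨ T' ⊆ T) :
    |∑ T ∈ A, (if x ∈ T then W T else - W T)| = ∑ T ∈ A, W T := by
  by_cases h : ∀ T ∈ A, x ∈ T
  · rw [Finset.sum_congr rfl (fun T hT => if_pos (h T hT))]
    exact abs_of_nonneg (Finset.sum_nonneg fun T _ => hW T)
  · push Not at h
    obtain ⟨T0, hT0, hx0⟩ := h
    have hy0 : y ∈ T0 := by
      have := hsep T0 hT0
      tauto
    have h1 : ∀ T ∈ A, x ∉ T := by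
      intro T hT hxT
      have hyT : y ∉ T := by
        have := hsep T hT
        tauto
      rcases hcomp T hT T0 hT0 with h2 | h2
      · exact hx0 (h2 hxT)
      · exact hyT (h2 hy0)
    rw [Finset.sum_congr rfl (fun T hT => if_neg (h1 T hT)), Finset.sum_neg_distrib, abs_neg]
    exact abs_of_nonneg (Finset.sum_nonneg fun T _ => hW T)

theorem embed (M : Finset L1) (r : L1) (J B : ℕ) (Φ : Fin J → Finset L1 → Fin B)
    (hΦ : ∀ x ∈ M, ∀ y ∈ M, ∃ j, Good (QQ M r) (Φ j) (x, y)) :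
    ∃ f : L1 → (Fin J → PiLp 1 (fun _ : Fin B => ℝ)), ∀ x ∈ M, ∀ y ∈ M,
      ‖f x - f y‖ = ‖x - y‖ := by
  classical
  let f : L1 → (Fin J → PiLp 1 (fun _ : Fin B => ℝ)) := fun x j =>
    WithLp.toLp 1 (fun b => ∑ T ∈ (QQ M r).filter (fun T => Φ j T = b),
      if x ∈ T then WR M r T else 0)
  have hcoord : ∀ x y : L1, ∀ j b, (f x - f y) j b =
      ∑ T ∈ ((QQ M r).filter (fun T => ¬ (x ∈ T ↔ y ∈ T))).filter (fun T => Φ j T = b),
        (if x ∈ T then WR M r T else - WR M r T) := by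
    intro x y j b
    have e : (f x - f y) j b = (∑ T ∈ (QQ M r).filter (fun T => Φ j T = b),
      if x ∈ T then WR M r T else 0) - (∑ T ∈ (QQ M r).filter (fun T => Φ j T = b),
      if y ∈ T then WR M r T else 0) := rfl
    rw [e, ← Finset.sum_sub_distrib, Finset.filter_comm, Finset.sum_filter (s :=
      (QQ M r).filter (fun T => Φ j T = b))]
    refine Finset.sum_congr rfl fun T _ => ?_
    by_cases hx : x ∈ T <;> by_cases hy : y ∈ T <;> simp [hx, hy]
  have hnorm : ∀ x y : L1, ∀ j, ‖(f x - f y) j‖ = ∑ b, |(f x - f y) j b| := by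
    intro x y j
    rw [PiLp.norm_eq_of_L1]
    rfl
  have hle : ∀ x ∈ M, ∀ y ∈ M, ∀ j, ‖(f x - f y) j‖ ≤ ‖x - y‖ := by
    intro x hx y hy j
    rw [hnorm, norm_sub_eq' M r x y hx hy]
    rw [← Finset.sum_fiberwise ((QQ M r).filter (fun T => ¬ (x ∈ T ↔ y ∈ T))) (fun T => Φ j T)]
    refine Finset.sum_le_sum fun b _ => ?_
    rw [hcoord]
    refine (Finset.abs_sum_le_sum_abs _ _).trans (Finset.sum_le_sum fun T _ => ?_)
    split_ifs
    · rw [abs_of_nonneg (WR_nonneg _ _ _)]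
    · rw [abs_neg, abs_of_nonneg (WR_nonneg _ _ _)]
  have hge : ∀ x ∈ M, ∀ y ∈ M, ∃ j, ‖(f x - f y) j‖ = ‖x - y‖ := by
    intro x hx y hy
    obtain ⟨j, hj⟩ := hΦ x hx y hy
    refine ⟨j, ?_⟩
    rw [hnorm, norm_sub_eq' M r x y hx hy]
    rw [← Finset.sum_fiberwise ((QQ M r).filter (fun T => ¬ (x ∈ T ↔ y ∈ T))) (fun T => Φ j T)]
    refine Finset.sum_congr rfl fun b _ => ?_
    rw [hcoord]
    apply abs_sum_eq (WR_nonneg M r)
    · intro T hT
      exact (Finset.mem_filter.1 (Finset.mem_filter.1 hT).1).2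
    · intro T hT T' hT'
      rw [Finset.mem_filter, Finset.mem_filter] at hT hT'
      exact hj T hT.1.1 T' hT'.1.1 hT.1.2 hT'.1.2 (hT.2.trans hT'.2.symm)
  refine ⟨f, fun x hx y hy => ?_⟩
  obtain ⟨j, hj⟩ := hge x hx y hy
  apply le_antisymm
  · exact (pi_norm_le_iff_of_nonneg (norm_nonneg _)).2 (hle x hx y hy)
  · rw [← hj]
    exact norm_le_pi_norm (f x - f y) j

theorem finrank_eq (J B : ℕ) :
    Module.finrank ℝ (Fin J → PiLp 1 (fun _ : Fin B => ℝ)) = J * B := by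
  rw [Module.finrank_pi_fintype]
  have : Module.finrank ℝ (PiLp 1 (fun _ : Fin B => ℝ)) = B := by
    have := (WithLp.linearEquiv 1 ℝ (Fin B → ℝ)).finrank_eq
    rw [Module.finrank_fin_fun] at this
    exact this
  simp [this]

end Pool.Agent.Work.MP_b0293a_gt
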