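import Pool.Agent.Work.MP_b0293a_gt.Hash
import Pool.Agent.Work.MP_288596_co.Dilworth

/-! One round: a colouring of the cuts with few colours for which a quarter of the pairs is
separated by no two incomparable cuts of the same colour. -/

namespace Pool.Agent.Work.MP_b0293a_gt

variable {α : Type*} [DecidableEq α]

/-- The pair `p` is good for the colouring `φ` of the cuts in `Q`. -/
def Good (Q : Finset (Finset α)) {B : ℕ} (φ : Finset α → Fin B) (p : α × α) : Prop :=
  ∀ T ∈ Q, ∀ T' ∈ Q, ¬ (p.1 ∈ T ↔ p.2 ∈ T) → ¬ (p.1 ∈ T' ↔ p.2 ∈ T') → φ T = φ T' →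
    T ⊆ T' ∨ T' ⊆ T

/-- The number of end points of pairs of `P` in `T`. -/
def cnt (P : Finset (α × α)) (T : Finset α) : ℕ :=
  ∑ p ∈ P, ((if p.1 ∈ T then 1 else 0) + (if p.2 ∈ T then 1 else 0))

theorem cnt_le (P : Finset (α × α)) (T : Finset α) : cnt P T ≤ 2 * P.card := by
  rw [cnt, mul_comm, ← smul_eq_mul, ← Finset.sum_const]
  refine Finset.sum_le_sum fun p _ => ?_
  split_ifs <;> omega

theorem card_le_cnt (P : Finset (α × α)) (T : Finset α) :
    (P.filter (fun p => p.1 ∈ T ∨ p.2 ∈ T)).card ≤ cnt P T := by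
  rw [cnt, Finset.card_filter]
  refine Finset.sum_le_sum fun p _ => ?_
  by_cases h1 : p.1 ∈ T <;> by_cases h2 : p.2 ∈ T <;> simp [h1, h2]

/-- The number of end points of pairs in the members of an antichain. -/
theorem sum_cnt (P : Finset (α × α)) (m : ℕ) (A : Finset (Finset α))
    (hA : ∀ z, (A.filter (fun T => z ∈ T)).card ≤ m) : ∑ T ∈ A, cnt P T ≤ 2 * m * P.card := by
  simp_rw [cnt]
  rw [Finset.sum_comm]
  calc _ ≤ ∑ _p ∈ P, 2 * m := by
        refine Finset.sum_le_sum fun p _ => ?_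
        rw [Finset.sum_add_distrib, ← Finset.card_filter, ← Finset.card_filter]
        have h1 := hA p.1
        have h2 := hA p.2
        omega
    _ = _ := by rw [Finset.sum_const, smul_eq_mul, mul_comm]

/-- Dilworth's theorem for one dyadic level. -/
theorem level (Q : Finset (Finset α)) (m : ℕ)
    (hm : ∀ z, ∀ A ⊆ Q, IsAntichain (· ⊆ ·) (A : Set (Finset α)) → (∀ T ∈ A, z ∈ T) → A.card ≤ m)
    (P : Finset (α × α)) (j : ℕ) :
    ∃ c : Finset α → ℕ, (∀ T ∈ Q, 2 ^ j ≤ cnt P T → c T < 2 * m * P.card / 2 ^ j) ∧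
      ∀ T ∈ Q, 2 ^ j ≤ cnt P T → ∀ T' ∈ Q, 2 ^ j ≤ cnt P T' → c T = c T' → T ⊆ T' ∨ T' ⊆ T := by
  classical
  let X := {T : Finset α // T ∈ Q ∧ 2 ^ j ≤ cnt P T}
  have hX : ∀ s : Finset X, IsAntichain (· ≤ ·) (s : Set X) →
      s.card ≤ 2 * m * P.card / 2 ^ j := by
    intro s hs
    rw [Nat.le_div_iff_mul_le (by positivity)]
    let A : Finset (Finset α) := s.map (Function.Embedding.subtype _)
    have hAQ : A ⊆ Q := by
      intro T hT
      obtain ⟨x, _, rfl⟩ := Finset.mem_map.1 hT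
      exact x.2.1
    have hanti : IsAntichain (· ⊆ ·) (A : Set (Finset α)) := by
      intro T hT T' hT' hne hle
      obtain ⟨x, hx, rfl⟩ := Finset.mem_map.1 (Finset.mem_coe.1 hT)
      obtain ⟨x', hx', rfl⟩ := Finset.mem_map.1 (Finset.mem_coe.1 hT')
      exact hs (Finset.mem_coe.2 hx) (Finset.mem_coe.2 hx') (fun h => hne (by rw [h])) hle
    have h1 := sum_cnt P m A (fun z => hm z _ ((Finset.filter_subset _ _).trans hAQ)
      (hanti.subset (by
        intro T hT
        exact Finset.mem_coe.2 (Finset.mem_of_mem_filter _ (Finset.mem_coe.1 hT))))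
      (fun T hT => (Finset.mem_filter.1 hT).2))
    refine le_trans ?_ h1
    have h2 : A.card = s.card := Finset.card_map _
    rw [← h2, ← smul_eq_mul, ← Finset.sum_const]
    refine Finset.sum_le_sum fun T hT => ?_
    obtain ⟨x, _, rfl⟩ := Finset.mem_map.1 hT
    exact x.2.2
  have : Fintype X := Fintype.ofInjective
    (fun x : X => (⟨x.1, x.2.1⟩ : {T : Finset α // T ∈ Q})) (fun x y h => by
      apply Subtype.ext
      simpa using h)
  obtain ⟨c, hc⟩ := MP_288596_co.dilworth_finite _ hX Finset.univ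
  refine ⟨fun T => if h : T ∈ Q ∧ 2 ^ j ≤ cnt P T then (c ⟨T, h⟩).val else 0, ?_, ?_⟩
  · intro T hT hT'
    have h : T ∈ Q ∧ 2 ^ j ≤ cnt P T := ⟨hT, hT'⟩
    simp only [h, and_self, dif_pos]
    exact (c _).2
  · intro T hT hTc T' hT' hTc' heq
    have h : T ∈ Q ∧ 2 ^ j ≤ cnt P T := ⟨hT, hTc⟩
    have h' : T' ∈ Q ∧ 2 ^ j ≤ cnt P T' := ⟨hT', hTc'⟩
    simp only [h, h', and_self, dif_pos] at heq
    exact hc ⟨T, h⟩ (Finset.mem_univ _) ⟨T', h'⟩ (Finset.mem_univ _) (Fin.ext heq)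

omit [DecidableEq α] in
/-- A finite nonempty chain of sets has a largest member. -/
theorem chain_top (C : Finset (Finset α)) (hC : C.Nonempty)
    (h : ∀ T ∈ C, ∀ T' ∈ C, T ⊆ T' ∨ T' ⊆ T) : ∃ T ∈ C, ∀ T' ∈ C, T' ⊆ T := by
  obtain ⟨T, hT, hmax⟩ := C.exists_max_image Finset.card hC
  refine ⟨T, hT, fun T' hT' => ?_⟩
  rcases h T hT T' hT' with h1 | h1
  · rw [Finset.eq_of_subset_of_card_le h1 (hmax T' hT')]
  · exact h1

theorem round (Q : Finset (Finset α)) (m : ℕ)
    (hm : ∀ z, ∀ A ⊆ Q, IsAntichain (· ⊆ ·) (A : Set (Finset α)) → (∀ T ∈ A, z ∈ T) → A.card ≤ m)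
    (P : Finset (α × α)) (K B : ℕ) (hK : 4 * m * (Nat.log 2 (2 * P.card) + 1) ≤ K)
    (hB : 2 * (2 * K) ^ 2 ≤ B) (hB0 : 0 < B) :
    ∃ φ : Finset α → Fin B, ∃ G ⊆ P, P.card ≤ 4 * G.card ∧ ∀ p ∈ G, Good Q φ p := by
  classical
  choose c hc1 hc2 using level Q m hm P
  -- the cuts which matter, and their colour classes (chains)
  let Q1 := Q.filter (fun T => cnt P T ≠ 0)
  let lev : Finset α → ℕ := fun T => Nat.log 2 (cnt P T)
  let ψ : Finset α → ℕ × ℕ := fun T => (lev T, c (lev T) T)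
  have hlev : ∀ T ∈ Q1, 2 ^ lev T ≤ cnt P T ∧ cnt P T < 2 ^ (lev T + 1) := by
    intro T hT
    have h0 := (Finset.mem_filter.1 hT).2
    exact ⟨Nat.pow_log_le_self 2 h0, Nat.lt_pow_succ_log_self (by norm_num) _⟩
  have hcomp : ∀ T ∈ Q1, ∀ T' ∈ Q1, ψ T = ψ T' → T ⊆ T' ∨ T' ⊆ T := by
    intro T hT T' hT' h
    have h1 : lev T = lev T' := congrArg Prod.fst h
    have h2 : c (lev T) T = c (lev T') T' := congrArg Prod.snd h
    rw [← h1] at h2
    refine hc2 (lev T) T (Finset.mem_filter.1 hT).1 (hlev T hT).1 T' (Finset.mem_filter.1 hT').1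
      ?_ h2
    rw [h1]
    exact (hlev T' hT').1
  let S : α × α → Finset (ℕ × ℕ) := fun p =>
    (Q1.filter (fun T => p.1 ∈ T ∨ p.2 ∈ T)).image ψ
  let L := Nat.log 2 (2 * P.card)
  have hsumS : ∑ p ∈ P, (S p).card ≤ K * P.card := by
    have h1 : ∀ p ∈ P, (S p).card = ∑ κ ∈ Q1.image ψ, if κ ∈ S p then 1 else 0 := by
      intro p _
      rw [← Finset.card_filter]
      congr 1
      ext κ
      rw [Finset.mem_filter]
      constructor
      · intro h
        exact ⟨Finset.image_subset_image (Finset.filter_subset _ _) h, h⟩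
      · exact fun h => h.2
    rw [Finset.sum_congr rfl h1, Finset.sum_comm]
    have h2 : ∀ κ ∈ Q1.image ψ, ∑ p ∈ P, (if κ ∈ S p then 1 else 0) ≤ 2 ^ (κ.1 + 1) := by
      intro κ hκ
      rw [← Finset.card_filter]
      have hne : (Q1.filter (fun T => ψ T = κ)).Nonempty := by
        obtain ⟨T, hT, hTκ⟩ := Finset.mem_image.1 hκ
        exact ⟨T, Finset.mem_filter.2 ⟨hT, hTκ⟩⟩
      obtain ⟨T, hT, htop⟩ := chain_top _ hne (by
        intro T hT T' hT'
        rw [Finset.mem_filter] at hT hT'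
        exact hcomp T hT.1 T' hT'.1 (hT.2.trans hT'.2.symm))
      obtain ⟨hT1, hTκ⟩ := Finset.mem_filter.1 hT
      have h3 : P.filter (fun p => κ ∈ S p) ⊆ P.filter (fun p => p.1 ∈ T ∨ p.2 ∈ T) := by
        intro p hp
        obtain ⟨hpP, hpS⟩ := Finset.mem_filter.1 hp
        obtain ⟨T', hT', hT'κ⟩ := Finset.mem_image.1 hpS
        obtain ⟨hT'1, hT'p⟩ := Finset.mem_filter.1 hT'
        have h4 := htop T' (Finset.mem_filter.2 ⟨hT'1, hT'κ⟩)
        exact Finset.mem_filter.2 ⟨hpP, hT'p.imp (fun h => h4 h) (fun h => h4 h)⟩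
      have h5 := (Finset.card_le_card h3).trans (card_le_cnt P T)
      have h6 := (hlev T hT1).2
      have h7 : lev T = κ.1 := by rw [← hTκ]
      rw [h7] at h6
      omega
    have h3 : Q1.image ψ ⊆ (Finset.range (L + 1)).biUnion
        (fun j => (Finset.range (2 * m * P.card / 2 ^ j)).image (fun i => (j, i))) := by
      intro κ hκ
      obtain ⟨T, hT, rfl⟩ := Finset.mem_image.1 hκ
      rw [Finset.mem_biUnion]
      refine ⟨lev T, ?_, ?_⟩
      · rw [Finset.mem_range, Nat.lt_succ_iff]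
        exact Nat.log_mono_right (cnt_le P T)
      · rw [Finset.mem_image]
        exact ⟨c (lev T) T, Finset.mem_range.2 (hc1 _ T (Finset.mem_filter.1 hT).1 (hlev T hT).1),
          rfl⟩
    calc ∑ κ ∈ Q1.image ψ, ∑ p ∈ P, (if κ ∈ S p then 1 else 0)
        ≤ ∑ κ ∈ Q1.image ψ, 2 ^ (κ.1 + 1) := Finset.sum_le_sum h2
      _ ≤ ∑ κ ∈ (Finset.range (L + 1)).biUnion
          (fun j => (Finset.range (2 * m * P.card / 2 ^ j)).image (fun i => (j, i))),
          2 ^ (κ.1 + 1) := Finset.sum_le_sum_of_subset h3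
      _ ≤ ∑ j ∈ Finset.range (L + 1), ∑ κ ∈ (Finset.range (2 * m * P.card / 2 ^ j)).image
          (fun i => (j, i)), 2 ^ (κ.1 + 1) := by
          rw [Finset.sum_biUnion]
          intro j _ j' _ hne
          rw [Function.onFun, Finset.disjoint_left]
          intro κ hκ hκ'
          obtain ⟨i, _, rfl⟩ := Finset.mem_image.1 hκ
          obtain ⟨i', _, h'⟩ := Finset.mem_image.1 hκ'
          exact hne (Prod.mk.inj h').1.symm
      _ ≤ ∑ j ∈ Finset.range (L + 1), 4 * m * P.card := by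
          refine Finset.sum_le_sum fun j _ => ?_
          rw [Finset.sum_image (by
            intro a _ b _ h
            exact (Prod.mk.inj h).2)]
          simp only
          rw [Finset.sum_const, Finset.card_range, smul_eq_mul]
          have h4 := Nat.div_mul_le_self (2 * m * P.card) (2 ^ j)
          calc 2 * m * P.card / 2 ^ j * 2 ^ (j + 1) = 2 * m * P.card / 2 ^ j * 2 ^ j * 2 := by ring
            _ ≤ 2 * m * P.card * 2 := Nat.mul_le_mul_right _ h4
            _ = _ := by ring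
      _ = 4 * m * (L + 1) * P.card := by
          rw [Finset.sum_const, Finset.card_range, smul_eq_mul]
          ring
      _ ≤ K * P.card := Nat.mul_le_mul_right _ hK
  -- Markov
  let P1 := P.filter (fun p => (S p).card ≤ 2 * K)
  have hP1 : P.card ≤ 2 * P1.card := by
    have h1 := Finset.card_filter_add_card_filter_not (s := P) (fun p => (S p).card ≤ 2 * K)
    have h2 : (2 * K + 1) * (P.filter (fun p => ¬ (S p).card ≤ 2 * K)).card ≤ K * P.card := by
      refine le_trans ?_ hsumS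
      calc (2 * K + 1) * (P.filter (fun p => ¬ (S p).card ≤ 2 * K)).card
          = ∑ _p ∈ P.filter (fun p => ¬ (S p).card ≤ 2 * K), (2 * K + 1) := by
            rw [Finset.sum_const, smul_eq_mul, mul_comm]
        _ ≤ ∑ p ∈ P.filter (fun p => ¬ (S p).card ≤ 2 * K), (S p).card := by
            refine Finset.sum_le_sum fun p hp => ?_
            have := (Finset.mem_filter.1 hp).2
            omega
        _ ≤ ∑ p ∈ P, (S p).card := Finset.sum_le_sum_of_subset (Finset.filter_subset _ _)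
    set bad := (P.filter (fun p => ¬ (S p).card ≤ 2 * K)).card
    have h3 : 2 * bad ≤ P.card := by
      rcases Nat.eq_zero_or_pos K with hK0 | hK0
      · rw [hK0] at h2
        omega
      · have h4 : K * (2 * bad) ≤ K * P.card := by nlinarith
        exact Nat.le_of_mul_le_mul_left h4 hK0
    have h5 : P1.card + bad = P.card := h1
    omega
  obtain ⟨h, G, hGP, hGc, hGi⟩ := hash P1 S (2 * K) B (fun p hp => (Finset.mem_filter.1 hp).2) hB hB0
  refine ⟨fun T => h (ψ T), G, hGP.trans (Finset.filter_subset _ _), by omega, ?_⟩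
  intro p hp T hT T' hT' hsep hsep' heq
  have hpP : p ∈ P := (Finset.mem_filter.1 (hGP hp)).1
  have hmem : ∀ T ∈ Q, ¬ (p.1 ∈ T ↔ p.2 ∈ T) → T ∈ Q1 ∧ (p.1 ∈ T ∨ p.2 ∈ T) := by
    intro T hT hs
    have h1 : p.1 ∈ T ∨ p.2 ∈ T := by tauto
    refine ⟨Finset.mem_filter.2 ⟨hT, ?_⟩, h1⟩
    have h2 : 0 < (P.filter (fun p => p.1 ∈ T ∨ p.2 ∈ T)).card :=
      Finset.card_pos.2 ⟨p, Finset.mem_filter.2 ⟨hpP, h1⟩⟩
    have h3 := card_le_cnt P T
    omega
  obtain ⟨a1, a2⟩ := hmem T hT hsep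
  obtain ⟨b1, b2⟩ := hmem T' hT' hsep'
  apply hcomp T a1 T' b1
  exact hGi p hp (Finset.mem_coe.2 (Finset.mem_image_of_mem _ (Finset.mem_filter.2 ⟨a1, a2⟩)))
    (Finset.mem_coe.2 (Finset.mem_image_of_mem _ (Finset.mem_filter.2 ⟨b1, b2⟩))) heq

/-- All pairs are good for one of `J` colourings. -/
theorem rounds (Q : Finset (Finset α)) (m : ℕ)
    (hm : ∀ z, ∀ A ⊆ Q, IsAntichain (· ⊆ ·) (A : Set (Finset α)) → (∀ T ∈ A, z ∈ T) → A.card ≤ m)
    (K B : ℕ) (hB : 2 * (2 * K) ^ 2 ≤ B) (hB0 : 0 < B) (J : ℕ) :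
    ∀ P : Finset (α × α), 4 * m * (Nat.log 2 (2 * P.card) + 1) ≤ K → P.card * 3 ^ J < 4 ^ J →
      ∃ Φ : Fin J → Finset α → Fin B, ∀ p ∈ P, ∃ j, Good Q (Φ j) p := by
  induction J with
  | zero =>
    intro P _ hJ
    have : P.card = 0 := by simpa using hJ
    rw [Finset.card_eq_zero] at this
    subst this
    exact ⟨fun j => j.elim0, fun p hp => absurd hp (Finset.notMem_empty p)⟩
  | succ J ih =>
    intro P hK hJ
    obtain ⟨φ, G, hGP, hGc, hG⟩ := round Q m hm P K B hK hB hB0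
    obtain ⟨Φ, hΦ⟩ := ih (P \ G) (by
      refine le_trans ?_ hK
      apply Nat.mul_le_mul_left
      apply Nat.succ_le_succ
      apply Nat.log_mono_right
      apply Nat.mul_le_mul_left
      exact Finset.card_le_card Finset.sdiff_subset) (by
      have h1 := Finset.card_sdiff_add_card_eq_card hGP
      have h2 : 4 * (P \ G).card ≤ 3 * P.card := by omega
      have h3 : 4 * ((P \ G).card * 3 ^ J) < 4 * 4 ^ J := by
        calc 4 * ((P \ G).card * 3 ^ J) = (4 * (P \ G).card) * 3 ^ J := by ring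
          _ ≤ (3 * P.card) * 3 ^ J := Nat.mul_le_mul_right _ h2
          _ = P.card * 3 ^ (J + 1) := by ring
          _ < 4 ^ (J + 1) := hJ
          _ = 4 * 4 ^ J := by ring
      omega)
    refine ⟨Fin.cons φ Φ, ?_⟩
    intro p hp
    by_cases hpG : p ∈ G
    · exact ⟨0, by simpa using hG p hpG⟩
    · obtain ⟨j, hj⟩ := hΦ p (Finset.mem_sdiff.2 ⟨hp, hpG⟩)
      exact ⟨j.succ, by simpa using hj⟩

end Pool.Agent.Work.MP_b0293a_gt
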